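import Pool.Agent.Helper13.TW.StC

/-!
# Project TW (MP_a45945_gt), module CLS: closures of the sides of a curve
-/

set_option autoImplicit false

namespace Pool.Agent.Helper25.TW

open Set Topology Pool.Agent.Helper13.TR Pool.Agent.Helper13.TW

private theorem side {S : Type} [MetricSpace S] {J A B : Set S} (hA : IsOpen A) (hB : IsOpen B)
    (nA : A.Nonempty) (nB : B.Nonempty) (dA : ∀ x ∈ A, x ∉ J) (dB : ∀ x ∈ B, x ∉ J) (dAB : ∀ x ∈ A, x ∉ B)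
    (hc : ∀ x, x ∈ A ∨ x ∈ B ∨ x ∈ J)
    (hs : ∀ p ∈ J, ∀ O : Set S, IsOpen O → p ∈ O → ∃ D₁ D₂ : Set S, D₁ ∪ D₂ = J ∧ D₂ ⊆ O ∧ IsPathConnected D₁ᶜ) :
    J ⊆ closure A := by
  intro p hp
  rw [mem_closure_iff]
  intro O hO hpO
  by_contra hne
  rw [not_nonempty_iff_eq_empty] at hne
  obtain ⟨D₁, D₂, hJ, hD, hpc⟩ := hs p hp O hO hpO
  have hpre := hpc.isConnected.isPreconnected
  have h1 : D₁ᶜ ⊆ A ∪ (B ∪ O) := by
    intro x hx
    rcases hc x with h | h | h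
    · exact Or.inl h
    · exact Or.inr (Or.inl h)
    · rw [← hJ] at h
      rcases h with h | h
      · exact absurd h hx
      · exact Or.inr (Or.inr (hD h))
  have h2 : (D₁ᶜ ∩ A).Nonempty := by
    obtain ⟨x, hx⟩ := nA
    exact ⟨x, fun h => dA x hx (hJ ▸ Or.inl h), hx⟩
  have h3 : (D₁ᶜ ∩ (B ∪ O)).Nonempty := by
    obtain ⟨x, hx⟩ := nB
    exact ⟨x, fun h => dB x hx (hJ ▸ Or.inl h), Or.inl hx⟩
  obtain ⟨x, _, hxA, hxBO⟩ := hpre A (B ∪ O) hA (hB.union hO) h1 h2 h3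
  rcases hxBO with h | h
  · exact dAB x hxA h
  · have : x ∈ O ∩ A := ⟨h, hxA⟩
    rw [hne] at this
    exact this

theorem hCLS (hTWO : StTWO) (hARN : StARN) (hSCL : StSCL) (_hARB : StARB) : StCLS := by
  intro S _ _ _ ω V hG J hJ
  obtain ⟨⟨oI, cI⟩, ⟨oO, cO⟩, hK, -, -⟩ := hTWO S ω V hG J hJ
  have hs : ∀ p ∈ J, ∀ O : Set S, IsOpen O → p ∈ O →
      ∃ D₁ D₂ : Set S, D₁ ∪ D₂ = J ∧ D₂ ⊆ O ∧ IsPathConnected D₁ᶜ := by
    intro p hp O hO hpO
    obtain ⟨a, b, D₁, D₂, hSpl, hD, -⟩ := (hSCL S J hJ.1).2.2.1 p hp O hO hpO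
    refine ⟨D₁, D₂, hSpl.2.2.2, hD, ?_⟩
    exact (hARN S ω hG.ws hG.nc).1 D₁ (Or.inl ⟨a, b, hSpl.1⟩)
  have dI : ∀ x ∈ Ins ω J, x ∉ J := fun x hx => hx.1
  have dO : ∀ x ∈ Out ω J, x ∉ J := fun x hx h => hx (Or.inl h)
  have dIO : ∀ x ∈ Ins ω J, x ∉ Out ω J := fun x hx h => h (Or.inr hx)
  have h1 : J ⊆ closure (Ins ω J) := by
    refine side oI oO cI.nonempty cO.nonempty dI dO dIO ?_ hs
    intro x
    by_cases h : x ∈ cl ω J
    · rcases h with h | h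
      · exact Or.inr (Or.inr h)
      · exact Or.inl h
    · exact Or.inr (Or.inl h)
  have h2 : J ⊆ closure (Out ω J) := by
    refine side oO oI cO.nonempty cI.nonempty dO dI (fun x hx h => dIO x h hx) ?_ hs
    intro x
    by_cases h : x ∈ cl ω J
    · rcases h with h | h
      · exact Or.inr (Or.inr h)
      · exact Or.inr (Or.inl h)
    · exact Or.inl h
  refine ⟨h1, h2, ?_⟩
  apply Subset.antisymm
  · exact closure_minimal subset_union_right hK.isClosed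
  · exact union_subset h1 subset_closure

end Pool.Agent.Helper25.TW
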