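import Pool.Agent.Helper13.TW.StE

/-!
# Project TW (MP_a45945_gt), module JSP: joint cut of a pair of cells
-/

set_option autoImplicit false

namespace Pool.Agent.Helper25.TW

open Set Topology Pool.Agent.Helper13.TR Pool.Agent.Helper13.TW

private theorem img_inter {X X' : Type} {h : X → X'} {J D₁ D₂ : Set X} {p q : X} (hi : InjOn h J)
    (h1 : D₁ ⊆ J) (h2 : D₂ ⊆ J) (h3 : D₁ ∩ D₂ = {p, q}) : h '' D₁ ∩ h '' D₂ = {h p, h q} := by
  rw [← hi.image_inter h1 h2, h3, image_pair]

theorem hJSP (hARB : StARB) (_hSCL : StSCL) : StJSP := by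
  intro X X' _ _ cell cell' hC hC' M hM p q D₁ D₂ P E₁ E₂ hS hc1 hc2
  obtain ⟨hMc, hMc', hcont, hinj, him⟩ := hM
  obtain ⟨hSpl, hP, hPJ, hE, hEP, hE1, hE2⟩ := hS
  obtain ⟨a1, a2, hD, hU⟩ := hSpl
  have s1 : D₁ ⊆ M.J := hU ▸ subset_union_left
  have s2 : D₂ ⊆ M.J := hU ▸ subset_union_right
  have hpP : p ∈ P := by
    have : p ∈ P ∩ M.J := by rw [hPJ]; exact Or.inl rfl
    exact this.1
  have hqP : q ∈ P := by
    have : q ∈ P ∩ M.J := by rw [hPJ]; exact Or.inr rfl
    exact this.1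
  have hpJ : p ∈ M.J := by
    have : p ∈ P ∩ M.J := by rw [hPJ]; exact Or.inl rfl
    exact this.2
  have hqJ : q ∈ M.J := by
    have : q ∈ P ∩ M.J := by rw [hPJ]; exact Or.inr rfl
    exact this.2
  obtain ⟨b1, -, -, -, b5, b6⟩ := hARB
  have hSpl' : Spl M.J' (M.h p) (M.h q) (M.h '' D₁) (M.h '' D₂) := by
    refine ⟨b6 X X' D₁ p q M.h a1 (hcont.mono s1) (hinj.mono s1),
      b6 X X' D₂ p q M.h a2 (hcont.mono s2) (hinj.mono s2), img_inter hinj s1 s2 hD, ?_⟩
    rw [← image_union, hU, him]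
  obtain ⟨P', E₁', E₂', hS', hc1', hc2'⟩ := hC'.spl M.E' M.J' _ _ _ _ hMc' hSpl'
  obtain ⟨-, hP', hPJ', hE', hEP', hE1', hE2'⟩ := hS'
  obtain ⟨f, fc, fi, fim, fp, fq⟩ := b5 X X' P P' p q (M.h p) (M.h q) hP hP'
  classical
  obtain ⟨g, hgP, hgJ⟩ : ∃ g : X → X', (∀ x ∈ P, g x = f x) ∧ ∀ x ∈ M.J, g x = M.h x := by
    refine ⟨fun x => if x ∈ P then f x else M.h x, fun x hx => if_pos hx, fun x hx => ?_⟩
    by_cases hxP : x ∈ P
    · have : x ∈ ({p, q} : Set X) := by rw [← hPJ]; exact ⟨hxP, hx⟩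
      simp only [hxP, if_true]
      rcases this with h | h
      · rw [h, fp]
      · rw [mem_singleton_iff.1 h, fq]
    · simp only [hxP, if_false]
  have gi : ∀ x ∈ M.J ∪ P, ∀ y ∈ M.J ∪ P, g x = g y → x = y := by
    have key : ∀ x ∈ P, ∀ y ∈ M.J, g x = g y → x = y := by
      intro x hx y hy h
      rw [hgP x hx, hgJ y hy] at h
      have h1 : f x ∈ P' ∩ M.J' := by
        refine ⟨fim ▸ mem_image_of_mem f hx, ?_⟩
        rw [h, ← him]
        exact mem_image_of_mem _ hy
      rw [hPJ'] at h1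
      rcases h1 with h1 | h1
      · have e1 : x = p := fi hx hpP (h1.trans fp.symm)
        have e2 : y = p := hinj hy hpJ (h.symm.trans h1)
        rw [e1, e2]
      · have e1 : x = q := fi hx hqP ((mem_singleton_iff.1 h1).trans fq.symm)
        have e2 : y = q := hinj hy hqJ (h.symm.trans (mem_singleton_iff.1 h1))
        rw [e1, e2]
    intro x hx y hy h
    rcases hx with hx | hx
    · rcases hy with hy | hy
      · rw [hgJ x hx, hgJ y hy] at h
        exact hinj hx hy h
      · exact (key y hy x hx h.symm).symm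
    · rcases hy with hy | hy
      · exact key x hx y hy h
      · rw [hgP x hx, hgP y hy] at h
        exact fi hx hy h
  have cP : IsClosed P := (b1 X P p q hP).2.1.isClosed
  have gP : g '' P = P' := by
    rw [← fim]
    exact image_congr hgP
  have gcP : ContinuousOn g P := fc.congr hgP
  have vv : ∀ (D : Set X), D ⊆ M.J → IsClosed D → ContinuousOn g (D ∪ P) ∧ InjOn g (D ∪ P) ∧
      g '' (D ∪ P) = M.h '' D ∪ P' := by
    intro D hDJ hDc
    refine ⟨?_, ?_, ?_⟩
    · exact ContinuousOn.union_of_isClosed ((hcont.mono hDJ).congr fun x hx => hgJ x (hDJ hx)) gcP hDc cP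
    · intro x hx y hy h
      exact gi x (union_subset_union_left P hDJ hx) y (union_subset_union_left P hDJ hy) h
    · rw [image_union, gP]
      congr 1
      exact image_congr fun x hx => hgJ x (hDJ hx)
  have c1 : IsClosed D₁ := (b1 X D₁ p q a1).2.1.isClosed
  have c2 : IsClosed D₂ := (b1 X D₂ p q a2).2.1.isClosed
  obtain ⟨v1, v2, v3⟩ := vv D₁ s1 c1
  obtain ⟨w1, w2, w3⟩ := vv D₂ s2 c2
  have sub1 : D₁ ∪ P ⊆ M.J ∪ P := union_subset_union_left P s1
  have sub2 : D₂ ∪ P ⊆ M.J ∪ P := union_subset_union_left P s2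
  refine ⟨⟨E₁, D₁ ∪ P, E₁', M.h '' D₁ ∪ P', g⟩, ⟨E₂, D₂ ∪ P, E₂', M.h '' D₂ ∪ P', g⟩, ?_, rfl, rfl, rfl, rfl⟩
  refine ⟨toFinite _, ?_, ?_, ?_, ?_, ?_, ?_, ?_, ?_, ?_, ?_, ?_⟩
  · intro N hN
    rcases hN with h | h
    · rw [h]
      exact ⟨hc1, hc1', v1, v2, v3⟩
    · rw [mem_singleton_iff.1 h]
      exact ⟨hc2, hc2', w1, w2, w3⟩
  · rw [biUnion_pair]
    exact hE
  · rw [biUnion_pair]
    exact hE'
  · intro N hN N' hN' hne
    rcases hN with h | h <;> rcases hN' with h' | h'
    · exact absurd (h.trans h'.symm) hne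
    · rw [h, mem_singleton_iff.1 h']
      simp only
      rw [hEP]
      exact fun x hx => ⟨Or.inr hx, Or.inr hx⟩
    · rw [mem_singleton_iff.1 h, h']
      simp only
      rw [inter_comm, hEP]
      exact fun x hx => ⟨Or.inr hx, Or.inr hx⟩
    · exact absurd ((mem_singleton_iff.1 h).trans (mem_singleton_iff.1 h').symm) hne
  · intro N hN N' hN' hne
    rcases hN with h | h <;> rcases hN' with h' | h'
    · exact absurd (h.trans h'.symm) hne
    · rw [h, mem_singleton_iff.1 h']
      simp only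
      rw [hEP']
      exact fun x hx => ⟨Or.inr hx, Or.inr hx⟩
    · rw [mem_singleton_iff.1 h, h']
      simp only
      rw [inter_comm, hEP']
      exact fun x hx => ⟨Or.inr hx, Or.inr hx⟩
    · exact absurd ((mem_singleton_iff.1 h).trans (mem_singleton_iff.1 h').symm) hne
  · intro N hN N' hN' x _
    rcases hN with h | h <;> rcases hN' with h' | h'
    · rw [h, h']
    · rw [h, mem_singleton_iff.1 h']
    · rw [mem_singleton_iff.1 h, h']
    · rw [mem_singleton_iff.1 h, mem_singleton_iff.1 h']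
  · intro N hN N' hN' x hx y hy hxy
    rcases hN with h | h <;> rcases hN' with h' | h'
    · rw [h] at hx hxy
      rw [h'] at hy hxy
      exact gi x (sub1 hx) y (sub1 hy) hxy
    · rw [h] at hx hxy
      rw [mem_singleton_iff.1 h'] at hy hxy
      exact gi x (sub1 hx) y (sub2 hy) hxy
    · rw [mem_singleton_iff.1 h] at hx hxy
      rw [h'] at hy hxy
      exact gi x (sub2 hx) y (sub1 hy) hxy
    · rw [mem_singleton_iff.1 h] at hx hxy
      rw [mem_singleton_iff.1 h'] at hy hxy
      exact gi x (sub2 hx) y (sub2 hy) hxy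
  · intro N hN
    rcases hN with h | h
    · rw [h]
      simp only
      rw [hE1]
      exact subset_union_left
    · rw [mem_singleton_iff.1 h]
      simp only
      rw [hE2]
      exact subset_union_left
  · intro N hN
    rcases hN with h | h
    · rw [h]
      simp only
      rw [hE1']
      exact subset_union_left
    · rw [mem_singleton_iff.1 h]
      simp only
      rw [hE2']
      exact subset_union_left
  · intro N hN x hx
    rcases hN with h | h
    · rw [h] at hx ⊢
      exact hgJ x hx.2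
    · rw [mem_singleton_iff.1 h] at hx ⊢
      exact hgJ x hx.2
  · intro N hN x hx y hy hxy
    rcases hN with h | h
    · rw [h] at hx hxy
      exact gi x (sub1 hx) y (Or.inl hy) (hxy.trans (hgJ y hy).symm)
    · rw [mem_singleton_iff.1 h] at hx hxy
      exact gi x (sub2 hx) y (Or.inl hy) (hxy.trans (hgJ y hy).symm)

end Pool.Agent.Helper25.TW
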