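import Pool.Agent.Helper31.TW.St2

/-! TW module GVE: generic vectors. -/

set_option autoImplicit false

namespace Pool.Agent.Helper25.TW

open Pool.Agent.Helper31.TW

private theorem gve_dot {n : ℕ} (γ w v : Fin n → ℤ) (s : ℤ) :
    dot γ (w + s • v) = dot γ w + s * dot γ v := by
  simp only [dot, Pi.add_apply, Pi.smul_apply, smul_eq_mul, Finset.mul_sum]
  rw [← Finset.sum_add_distrib]
  exact Finset.sum_congr rfl fun i _ => by ring

theorem hGVE : StGVE := by
  intro n α 𝓑
  induction 𝓑 using Finset.induction_on with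
  | empty => intro _; exact ⟨0, by simp [dot], by simp⟩
  | insert β 𝓑 hβ ih =>
    intro h
    obtain ⟨w, hw, hw'⟩ := ih (fun γ hγ => h γ (Finset.mem_insert_of_mem hγ))
    obtain ⟨v, hv, hv'⟩ := h β (Finset.mem_insert_self _ _)
    refine ⟨w + (∑ γ ∈ insert β 𝓑, |dot γ w| + 1) • v, ?_, ?_⟩
    · rw [gve_dot, hw, hv, mul_zero, add_zero]
    · intro γ hγ h0
      rw [gve_dot] at h0
      have hs : |dot γ w| ≤ ∑ γ ∈ insert β 𝓑, |dot γ w| :=
        Finset.single_le_sum (f := fun γ => |dot γ w|) (fun _ _ => abs_nonneg _) hγ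
      generalize (∑ γ ∈ insert β 𝓑, |dot γ w|) = S at h0 hs
      by_cases hγv : dot γ v = 0
      · rw [hγv, mul_zero, add_zero] at h0
        rcases Finset.mem_insert.1 hγ with rfl | hγ'
        · exact hv' hγv
        · exact hw' γ hγ' h0
      · have h1 : 1 ≤ |dot γ v| := Int.one_le_abs hγv
        have hS : 0 ≤ S := le_trans (abs_nonneg _) hs
        have h2 : dot γ w = -((S + 1) * dot γ v) := by linarith
        have h3 : |dot γ w| = (S + 1) * |dot γ v| := by
          rw [h2, abs_neg, abs_mul, abs_of_nonneg (by linarith)]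
        nlinarith

end Pool.Agent.Helper25.TW
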